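import Pool.Agent.H39.ODP.Final
import Pool.Agent.H99.OD.WIT

/-!
# Two-orbit polyhedra with odd faces in hyperbolic 3-space: the theorem
-/

namespace Pool.Agent.H39.ODP.All

open Pool.Agent.H57.CP Pool.Agent.H57.CP.Final Pool.Agent.H39.TO Pool.Agent.H39.TOH.Final Pool.Agent.H39.OD

theorem main : MainOdd := Pool.Agent.H39.ODP.Final.main' (Pool.Agent.H99.OD.pf_WIT tMKI)

end Pool.Agent.H39.ODP.All
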