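import Pool.Agent.H70.TOH.BWS
import Pool.Agent.H39.OD.Targets

/-!
# Two-orbit polyhedra with odd faces: B-structures from Coxeter groups (row BW2, a variant of helper70's BWS)
-/

namespace Pool.Agent.H39.ODP.BW2

open Pool.Agent.H57.CP Pool.Agent.H39.TO Pool.Agent.H39.OD Pool.Agent.H70.TOH.BWS

theorem pf (h1 : T_SGE) (h2 : T_CHM) (h3 : T_LII) (h4 : T_DSW) : T_BW2 := by
  intro M al σ ψ hN hσ hψ hinj i j k l w v hij hik hjk hM vi vj vk r hr hrv hli hfr
  obtain ⟨hLor, hfaith, -⟩ := h1 M al σ hN hσ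
  have hσr : σ r = Pool.Agent.H57.CP.refl (σ w (al l)) := by rw [hr, refl_conj hσ hLor]
  have hrr : r * r = 1 := by
    rw [hr]
    have := ss_mul M l
    calc w * ss M l * w⁻¹ * (w * ss M l * w⁻¹) = w * (ss M l * ss M l) * w⁻¹ := by group
      _ = 1 := by rw [this]; group
  have hnn : mk (σ w (al l)) (σ w (al l)) = -1 := by rw [(hLor w).1, hN.unit l]
  have vle : ∀ t, mk v.1 (al t) ≤ 0 := by
    intro t
    have ht : t = i ∨ t = j ∨ t = k := by omega
    rcases ht with rfl | rfl | rfl
    · exact vi.le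
    · exact vj.le
    · exact vk.le
  -- the group
  have hG : G3 (ψ r) (ψ (ss M i)) (ψ (ss M j)) = (Subgroup.closure {r, ss M i, ss M j}).map ψ := by
    unfold G3
    rw [cl3]
  have hG' : ∀ g ∈ G3 (ψ r) (ψ (ss M i)) (ψ (ss M j)), ∃ u : M.Group, g = ψ u := by
    intro g hg
    rw [hG] at hg
    obtain ⟨u, -, hu⟩ := hg
    exact ⟨u, hu.symm⟩
  have ext : ∀ (u : M.Group) (x : H3), σ u x.1 = (ψ u x).1 := fun u x => (hψ u).2 x
  have fixv : ∀ (u : M.Group) (x : H3), σ u x.1 = x.1 → ψ u x = x := by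
    intro u x h
    apply Subtype.ext
    rw [← ext]
    exact h
  have fixv' : ∀ (u : M.Group) (x : H3), ψ u x = x → σ u x.1 = x.1 := by
    intro u x h
    rw [ext, h]
  have hrvv : (ψ r v).1 = v.1 + (2 * mk (σ w (al l)) v.1) • σ w (al l) := by
    rw [← ext, hσr, refl_eq]
  have hcoef : (2 * mk (σ w (al l)) v.1) ≠ 0 := by
    rw [mk_comm']
    exact mul_ne_zero two_ne_zero hrv
  have hn0 : σ w (al l) ≠ 0 := by
    intro h0
    rw [h0] at hnn
    simp [mk] at hnn
  refine
    { ir := (hψ r).1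
      ia := (hψ _).1
      ib := (hψ _).1
      rr := by rw [← map_mul, hrr, map_one]
      aa := by rw [← map_mul, ss_mul, map_one]
      bb := by rw [← map_mul, ss_mul, map_one]
      a1 := fun h => ss_ne_one M i (hinj (by rw [h, map_one]))
      b1 := fun h => ss_ne_one M j (hinj (by rw [h, map_one]))
      ab := fun h => ss_ne hN hσ hij (hinj h)
      av := fixv _ _ (by rw [hσ i]; exact refl_fix _ _ vi)
      bv := fixv _ _ (by rw [hσ j]; exact refl_fix _ _ vj)
      rv := ?_
      st := ?_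
      fr := ?_
      ra := ?_
      rb := ?_
      di := ?_ }
  · intro h
    have h5 := hrvv
    rw [h] at h5
    have h6 : (2 * mk (σ w (al l)) v.1) • σ w (al l) = 0 := by
      have : v.1 + (2 * mk (σ w (al l)) v.1) • σ w (al l) = v.1 + 0 := by rw [← h5, add_zero]
      exact add_left_cancel this
    rcases smul_eq_zero.1 h6 with h7 | h7
    · exact hcoef h7
    · exact hn0 h7
  · intro g hg hgv
    obtain ⟨u, rfl⟩ := hG' g hg
    obtain ⟨-, h6⟩ := h2 M al σ hN hσ u v.1 vle (by rw [fixv' u v hgv]; exact vle)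
    rw [cl2]
    refine ⟨u, ?_, rfl⟩
    refine (Subgroup.closure_le _).2 ?_ h6
    rintro s ⟨t, ht, rfl⟩
    have ht' : t = i ∨ t = j ∨ t = k := by omega
    rcases ht' with rfl | rfl | rfl
    · exact Subgroup.subset_closure (by simp)
    · exact Subgroup.subset_closure (by simp)
    · exact absurd ht vk.ne
  · intro g hg hgr
    rw [cl2] at hg
    obtain ⟨u, hu, rfl⟩ := hg
    have h6 := fixv' u _ hgr
    rw [hrvv, map_add, map_smul, fixes hσ vi vj u hu] at h6
    have h7 : σ u (σ w (al l)) = σ w (al l) := by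
      have h8 := add_left_cancel h6
      exact smul_right_injective _ hcoef h8
    rw [hfr u hu h7, map_one]
  · intro g hg hg'
    rw [cl2] at hg hg'
    obtain ⟨u, hu, rfl⟩ := hg
    obtain ⟨u', hu', he⟩ := hg'
    have hee := hinj he
    subst hee
    have m1 := map_cl σ hrr (ss_mul M i) hu
    have m2 := map_cl σ (ss_mul M i) (ss_mul M j) hu'
    rw [hσr, hσ i] at m1
    rw [hσ i, hσ j] at m2
    rcases h3 (σ w (al l)) (al i) (al j) (σ u') hnn (hN.unit i) (hN.unit j) hli (hLor u').1 m1 m2 with h5 | h5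
    · left
      rw [hfaith u' h5, map_one]
    · right
      have h6 : σ (u' * ss M i) = 1 := by
        rw [map_mul, h5, ← hσ i, ← map_mul, ss_mul, map_one]
      have h7 := hfaith _ h6
      have h8 : u' = ss M i := by
        rw [mul_eq_one_iff_eq_inv] at h7
        rw [h7]
        exact M.toCoxeterSystem.inv_simple i
      rw [h8]
  · intro g hg hg'
    rw [cl2] at hg hg'
    obtain ⟨u, hu, rfl⟩ := hg
    obtain ⟨u', hu', he⟩ := hg'
    have hee := hinj he
    subst hee
    have m1 := map_cl σ hrr (ss_mul M j) hu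
    rw [Set.pair_comm] at hu'
    have m2 := map_cl σ (ss_mul M j) (ss_mul M i) hu'
    rw [hσr, hσ j] at m1
    rw [hσ i, hσ j] at m2
    rcases h3 (σ w (al l)) (al j) (al i) (σ u') hnn (hN.unit j) (hN.unit i) (li_swap hli) (hLor u').1 m1 m2 with
      h5 | h5
    · left
      rw [hfaith u' h5, map_one]
    · right
      have h6 : σ (u' * ss M j) = 1 := by
        rw [map_mul, h5, ← hσ j, ← map_mul, ss_mul, map_one]
      have h7 := hfaith _ h6
      have h8 : u' = ss M j := by
        rw [mul_eq_one_iff_eq_inv] at h7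
        rw [h7]
        exact M.toCoxeterSystem.inv_simple j
      rw [h8]
  · obtain ⟨ε, hε, h5⟩ := h4 M al σ hN hσ i j k hij hik hjk hM v v vi vj vk vle
    refine ⟨ε, hε, ?_⟩
    intro g hg hgv
    obtain ⟨u, rfl⟩ := hG' g hg
    have h6 := h5 u (fun h => hgv (fixv u v h))
    unfold ch
    rw [← ext]
    exact h6

end Pool.Agent.H39.ODP.BW2
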