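import Pool.Agent.H39.OD.Targets

/-!
# Two-orbit polyhedra with odd faces: distances (row CHF)
-/

namespace Pool.Agent.H39.ODP.CHF

open Pool.Agent.H57.CP Pool.Agent.H39.TO Pool.Agent.H39.OD

/-- distance of a point and its mirror image -/
theorem ch_refl (x y : H3) (n : V4) (hn : mk n n = -1) (h : y.1 = Pool.Agent.H57.CP.refl n x.1) :
    ch x y = 1 + 2 * (mk x.1 n) ^ 2 := by
  have hx : mk x.1 x.1 = 1 := x.2.1
  have e : ∀ i, y.1 i = x.1 i + 2 * mk n x.1 * n i := fun i => congrFun h i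
  have e1 : ch x y = mk x.1 x.1 + 2 * mk n x.1 * mk x.1 n := by
    simp only [ch]
    unfold mk
    rw [e, e, e, e]
    unfold mk
    ring
  rw [e1, hx]
  have e2 : mk n x.1 = mk x.1 n := by simp only [mk]; ring
  rw [e2]; ring

theorem mk_refl (x y n k : V4) (h : y = Pool.Agent.H57.CP.refl n x) : mk y k = mk x k + 2 * mk x n * mk n k := by
  have e : ∀ i, y i = x i + 2 * mk n x * n i := fun i => congrFun h i
  unfold mk
  rw [e, e, e, e]
  unfold mk
  ring

theorem pf (hR : T_RFX) : T_CHF := by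
  intro v n0 n1 h0 h1 hv
  have r0 := (hR n0 h0).1
  have r1 := (hR n1 h1).1
  refine ⟨ch_refl v _ n0 h0 (r0 v), ?_⟩
  rw [ch_refl (rf n0 v) _ n1 h1 (r1 _), mk_refl _ _ _ n1 (r0 v), hv]
  ring

end Pool.Agent.H39.ODP.CHF
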