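import Pool.Agent.H39.OD.Targets

/-!
# Two-orbit polyhedra with odd faces in hyperbolic 3-space: the classification of the reflection groups (row CLA2)
-/

namespace Pool.Agent.H39.ODP.CLA2

open Pool.Agent.H57.CP Pool.Agent.H39.TO Pool.Agent.H39.OD

theorem cos_pos' (p : ℕ) (hp : 3 ≤ p) : 0 < Real.cos (Real.pi / p) := by
  apply Real.cos_pos_of_mem_Ioo
  have h3 : (3 : ℝ) ≤ p := by exact_mod_cast hp
  have hpi := Real.pi_pos
  constructor
  · have : 0 < Real.pi / p := by positivity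
    linarith
  · rw [div_lt_div_iff₀ (by linarith) (by norm_num)]
    nlinarith

theorem sin_pos' (p : ℕ) (hp : 3 ≤ p) : 0 < Real.sin (Real.pi / p) := by
  have h3 : (3 : ℝ) ≤ p := by exact_mod_cast hp
  have hpi := Real.pi_pos
  apply Real.sin_pos_of_pos_of_lt_pi
  · positivity
  · rw [div_lt_iff₀ (by linarith)]
    nlinarith

theorem c2_eq (p : ℕ) : c2 p = 2 * Real.cos (Real.pi / p) ^ 2 - 1 := by
  unfold c2
  rw [show 2 * Real.pi / p = 2 * (Real.pi / p) by ring, Real.cos_two_mul]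

theorem c2_eq' (p : ℕ) : c2 p = 1 - 2 * Real.sin (Real.pi / p) ^ 2 := by
  rw [c2_eq]
  have := Real.sin_sq_add_cos_sq (Real.pi / p)
  linarith


/-- the families from the values -/
theorem fam (p b : ℕ) (x y z : ℝ) (hp5 : 5 ≤ p) (hx : x = Real.cos ((1 : ℕ) * Real.pi / p))
    (hy : y = Real.cos ((b : ℕ) * Real.pi / p))
    (h : (b = 2 ∧ (z = 0 ∨ z = Real.cos (Real.pi / p) ∨ (p = 7 ∧ z = 1 / 2))) ∨ (b = 3 ∧ z = 1 / 2 ∧ ¬ 3 ∣ p) ∨
      (b = 4 ∧ z = Real.cos (Real.pi / p) ∧ 7 ≤ p)) :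
    ∃ i, VP p i ∧ x = cA p ∧ y = cB p i ∧ z = cD p i := by
  have e1 : x = cA p := by
    rw [hx]; unfold cA; norm_num
  rcases h with ⟨rfl, h | h | ⟨h, h'⟩⟩ | ⟨rfl, h, h'⟩ | ⟨rfl, h, h'⟩
  · refine ⟨0, ⟨hp5, by simp, by simp, by simp⟩, e1, ?_, ?_⟩
    · rw [hy]; simp [cB]
    · rw [h]; simp [cD]
  · refine ⟨1, ⟨hp5, by simp, by simp, by simp⟩, e1, ?_, ?_⟩
    · rw [hy]; simp [cB]
    · rw [h]; simp [cD, cA]
  · refine ⟨4, ⟨hp5, by simp, by simp, fun _ => h⟩, e1, ?_, ?_⟩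
    · rw [hy]; simp [cB]
    · rw [h']; simp [cD]
  · refine ⟨2, ⟨hp5, fun _ => h', by simp, by simp⟩, e1, ?_, ?_⟩
    · rw [hy]; simp [cB]
    · rw [h]; simp [cD]
  · refine ⟨3, ⟨hp5, by simp, fun _ => h', by simp⟩, e1, ?_, ?_⟩
    · rw [hy]; simp [cB]
    · rw [h]; simp [cD, cA]

theorem mk_neg_left (x y : V4) : mk (-x) y = -mk x y := by
  simp only [mk, Pi.neg_apply]; ring

theorem mk_neg_right (x y : V4) : mk x (-y) = -mk x y := by
  simp only [mk, Pi.neg_apply]; ring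

theorem mk_comm (x y : V4) : mk x y = mk y x := by
  simp only [mk]; ring

/-- exact values in the spherical case -/
theorem sph_tau (C τ : ℝ) (hC : 0 ≤ C) (h5 : 5 * C ^ 2 = 1)
    (hτ : τ = C * Real.sin (Real.pi / (5 : ℕ)) ^ 2 - Real.cos (Real.pi / (5 : ℕ)) ^ 2) : τ = -1 / 2 := by
  have e : Real.cos (Real.pi / (5 : ℕ)) = (1 + Real.sqrt 5) / 4 := by
    have := Real.cos_pi_div_five
    rw [← this]; norm_num
  have h1 := Real.sin_sq_add_cos_sq (Real.pi / (5 : ℕ))
  have h2 : Real.sqrt 5 ^ 2 = 5 := Real.sq_sqrt (by norm_num)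
  have h3 : 0 < Real.sqrt 5 := Real.sqrt_pos.mpr (by norm_num)
  have h4 : C * Real.sqrt 5 = 1 := by
    have h6 : (C * Real.sqrt 5) ^ 2 = 1 := by rw [mul_pow, h2]; linarith
    have h7 : 0 ≤ C * Real.sqrt 5 := by positivity
    nlinarith
  have h8 : C = Real.sqrt 5 / 5 := by
    have : C * (Real.sqrt 5 ^ 2) = Real.sqrt 5 := by
      rw [pow_two, ← mul_assoc, h4, one_mul]
    rw [h2] at this
    linarith
  have h9 : Real.sin (Real.pi / (5 : ℕ)) ^ 2 = 1 - ((1 + Real.sqrt 5) / 4) ^ 2 := by rw [← e]; linarith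
  rw [hτ, h9, e, h8]
  linear_combination (-(Real.sqrt 5 + 7) / 80) * h2

theorem pf (hR : T_RTR2) (hA : T_ANG) (hE : T_EUC) (hS : T_SPH) (hH : T_HYP) (hK : T_KKA) (hV : T_FVL)
    (hF : T_FSY) (h9 : T_TAA) (h7 : T_TAB) (h5 : T_TAC) : T_CLA2 := by
  intro p n v n0 n1 n2 hodd hp3 h
  obtain ⟨t, t', k, k', hT, hC0, k0, kp, k0', kp', hk, hk', hkk, hkp, y1, y2, hy1, hy2, g1, g2, g3⟩ :=
    hR p n v n0 n1 n2 hp3 h
  have p5 : 5 ≤ p := by
    rcases Nat.lt_or_ge p 5 with h | h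
    · exfalso
      obtain ⟨j, hj⟩ := hodd
      have : p = 3 := by omega
      omega
    · exact h
  -- `|mk y1 y2| < 1`
  have hlin : LinearIndependent ℝ ![n1, n2] := by
    have h1 := h.li.comp (fun i : Fin 2 => (i.succ : Fin 3)) (Fin.succ_injective _)
    have h2 : (![n0, n1, n2] ∘ fun i : Fin 2 => (i.succ : Fin 3)) = ![n1, n2] := by
      funext i
      fin_cases i <;> rfl
    rwa [h2] at h1
  obtain ⟨j, j0, jn, hjn, hj⟩ := hA n1 n2 n h.u1 h.u2 h.nn hlin h.o3
  have hlt : (mk n1 n2) ^ 2 < 1 := by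
    rw [hj]
    have hn : (0 : ℝ) < n := by exact_mod_cast (by omega : 0 < n)
    have hs : 0 < Real.sin (j * Real.pi / n) := by
      apply Real.sin_pos_of_pos_of_lt_pi
      · have : (0 : ℝ) < j := by exact_mod_cast j0
        have := Real.pi_pos
        positivity
      · rw [div_lt_iff₀ hn]
        have : (j : ℝ) < n := by exact_mod_cast jn
        have := Real.pi_pos
        nlinarith
    have e1 := Real.sin_sq_add_cos_sq (j * Real.pi / n)
    have e2 := pow_pos hs 2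
    linarith
  have hsq : (mk y1 y2) ^ 2 = (mk n1 n2) ^ 2 := by
    rcases hy1 with rfl | rfl <;> rcases hy2 with rfl | rfl <;>
      simp only [mk_neg_left, mk_neg_right, neg_neg, neg_sq]
  have hf1 : (fk p (CC p t t') k k') ^ 2 < 1 := by rw [← g3, hsq]; exact hlt
  have hf1' : fk p (CC p t t') k k' < 1 := (abs_lt.mp ((sq_lt_one_iff_abs_lt_one _).mp hf1)).2
  have hcos := cos_pos' p hp3
  have hsin := sin_pos' p hp3
  have hc2 := c2_eq p
  have hc2' := c2_eq' p
  have hCs : CC p t t' * Real.sin (Real.pi / p) ^ 2 = mk t t' + Real.cos (Real.pi / p) ^ 2 := by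
    unfold CC
    exact div_mul_cancel₀ _ (by positivity)
  have hτ : mk t t' = CC p t t' * Real.sin (Real.pi / p) ^ 2 - Real.cos (Real.pi / p) ^ 2 := by
    rw [hCs]; ring
  have hCC : (1 - c2 p) * CC p t t' = 2 * mk t t' + 1 + c2 p := by
    have : (1 - c2 p) * CC p t t' = 2 * (CC p t t' * Real.sin (Real.pi / p) ^ 2) := by rw [hc2']; ring
    rw [this, hCs, hc2]; ring
  obtain ⟨v2, v3, v4⟩ := hV p (CC p t t') (mk t t') hp3 hτ
  have core : ∀ (a b : ℕ) (m0 m1 m2 : V4), 0 < a → 0 < b → a < b → a + b < p → Nat.Coprime b p →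
      fk p (CC p t t') a b < 1 → mk m0 m1 = Real.cos (a * Real.pi / p) → mk m0 m2 = Real.cos (b * Real.pi / p) →
      mk m1 m2 = fk p (CC p t t') a b →
      ∃ i, VP p i ∧ mk m0 m1 = cA p ∧ mk m0 m2 = cB p i ∧ mk m1 m2 = cD p i := by
    intro a b m0 m1 m2 ha hb hab hs hbp hlt1 q1 q2 q3
    suffices hsuf : a = 1 ∧ ((b = 2 ∧ (mk m1 m2 = 0 ∨ mk m1 m2 = Real.cos (Real.pi / p) ∨
        (p = 7 ∧ mk m1 m2 = 1 / 2))) ∨ (b = 3 ∧ mk m1 m2 = 1 / 2 ∧ ¬ 3 ∣ p) ∨
        (b = 4 ∧ mk m1 m2 = Real.cos (Real.pi / p) ∧ 7 ≤ p)) by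
      obtain ⟨rfl, hsuf⟩ := hsuf
      exact fam p b _ _ _ p5 q1 q2 hsuf
    rw [q3]
    have h3 : b = 3 → ¬ 3 ∣ p := by
      rintro rfl hd
      have := Nat.Coprime.eq_one_of_dvd hbp hd
      omega
    rcases lt_trichotomy (CC p t t') 1 with hc | hc | hc
    · obtain ⟨rfl, hc5⟩ := hS p n0 t t' hodd p5 hT hC0 hc
      have hτ' := sph_tau (CC 5 t t') (mk t t') hC0 hc5 hτ
      have ha1 : a = 1 := by omega
      have hb1 : b = 2 ∨ b = 3 := by omega
      subst ha1
      rcases hb1 with rfl | rfl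
      · refine ⟨rfl, Or.inl ⟨rfl, Or.inl ?_⟩⟩
        rw [v2, hτ']; ring
      · refine ⟨rfl, Or.inr (Or.inl ⟨rfl, ?_, h3 rfl⟩)⟩
        rw [v3, hτ']; ring
    · exact absurd hc (hE p n0 t t' hodd p5 hT)
    · obtain ⟨H7, H5⟩ := hH p n0 t t' hT hc
      rcases (show p = 5 ∨ 7 ≤ p by obtain ⟨j, hj⟩ := hodd; omega) with rfl | hp7
      · obtain ⟨t0, tJ⟩ := H5 rfl
        obtain ⟨rfl, rfl⟩ := h5.2.1 (CC 5 t t') a b (by rw [hCC]; linarith) ha hb hs hab hlt1
        rw [v2] at hlt1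
        have tz := h5.1 (mk t t') t0 hlt1 tJ
        refine ⟨rfl, Or.inl ⟨rfl, Or.inr (Or.inl ?_)⟩⟩
        rw [v2, tz]
        ring
      · obtain ⟨t0, J3, J4⟩ := H7 hp7
        have hch : 1 / 2 ≤ c2 p := by
          unfold c2
          rw [← Real.cos_pi_div_three]
          have h7 : (7 : ℝ) ≤ p := by exact_mod_cast hp7
          have hpi := Real.pi_pos
          apply Real.cos_le_cos_of_nonneg_of_le_pi
          · positivity
          · linarith
          · rw [div_le_div_iff₀ (by linarith) (by norm_num)]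
            nlinarith
        have hcos1 : Real.cos (Real.pi / p) ≤ 1 := Real.cos_le_one _
        have hcosh : 4 / 5 ≤ Real.cos (Real.pi / p) := by
          by_contra hcon
          have e1 := mul_self_lt_mul_self hcos.le (not_le.mp hcon)
          have e2 : Real.cos (Real.pi / p) * Real.cos (Real.pi / p) = Real.cos (Real.pi / p) ^ 2 := (pow_two _).symm
          rw [e2] at e1
          linarith
        have hJ4 : mk t t' = 0 ∨ 2 * c2 p - 1 ≤ 16 * (mk t t') ^ 2 * (1 + mk t t') * (c2 p + mk t t') := by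
          rcases J4 with J | J | J
          · exact Or.inl J
          · exfalso; linarith
          · exact Or.inr J
        obtain ⟨rfl, hb3⟩ := hK p a b (CC p t t') hodd hp7 ha hb hs hab (by rw [hCC]; linarith) hlt1
        have hneg : b = 3 ∨ b = 4 → mk t t' < 0 := by
          rintro (rfl | rfl)
          · rw [v3] at hlt1
            by_contra hcon
            push Not at hcon
            have e1 := mul_nonneg hcon (by linarith : (0 : ℝ) ≤ 1 + 2 * c2 p)
            linarith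
          · rw [v4] at hlt1
            by_contra hcon
            push Not at hcon
            have e1 : 2 ≤ 4 * c2 p * mk t t' + 2 * c2 p + 1 := by
              have e2 := mul_nonneg (by linarith : (0 : ℝ) ≤ c2 p) hcon
              linarith
            have e3 := mul_le_mul hcosh e1 (by norm_num) hcos.le
            linarith
        have hL : Real.cos (Real.pi / p) * (2 * mk t t' + 1) < 1 := by
          rcases hb3 with rfl | hb3
          · rw [v2] at hlt1; exact hlt1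
          · have e1 := hneg hb3
            have e2 : 0 ≤ 2 * mk t t' + 1 := by linarith
            have e3 := mul_le_mul_of_nonneg_right hcos1 e2
            linarith
        have key : mk t t' = -1 / 2 ∨ mk t t' = 0 ∨ (p = 7 ∧ Real.cos (Real.pi / p) * (2 * mk t t' + 1) = 1 / 2 ∧
            1 < mk t t' * (1 + 2 * c2 p) + 1 + c2 p ∧
            1 < Real.cos (Real.pi / p) * (4 * c2 p * mk t t' + 2 * c2 p + 1)) := by
          rcases (show p = 7 ∨ 9 ≤ p by obtain ⟨j, hj⟩ := hodd; omega) with h77 | hp9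
          · subst h77
            rcases h7 (mk t t') t0 (by exact_mod_cast hL) J3 hJ4 with q | q | ⟨q1, q2, q3⟩
            · exact Or.inl q
            · exact Or.inr (Or.inl q)
            · exact Or.inr (Or.inr ⟨rfl, by exact_mod_cast q1, q2, by exact_mod_cast q3⟩)
          · rcases h9 p (mk t t') hp9 t0 hL J3 hJ4 with q | q
            · exact Or.inl q
            · exact Or.inr (Or.inl q)
        refine ⟨rfl, ?_⟩
        rcases hb3 with rfl | rfl | rfl
        · refine Or.inl ⟨rfl, ?_⟩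
          rcases key with q | q | ⟨q0, q1, _⟩
          · left
            rw [v2, q]; ring
          · right; left
            rw [v2, q]; ring
          · right; right
            refine ⟨q0, ?_⟩
            rw [v2, q1]
        · refine Or.inr (Or.inl ⟨rfl, ?_, h3 rfl⟩)
          rcases key with q | q | ⟨_, _, q2, _⟩
          · rw [v3, q]; ring
          · exfalso
            rw [v3, q] at hlt1
            linarith
          · exfalso
            rw [v3] at hlt1
            linarith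
        · refine Or.inr (Or.inr ⟨rfl, ?_, hp7⟩)
          rcases key with q | q | ⟨_, _, _, q3⟩
          · rw [v4, q]; ring
          · exfalso
            have := hneg (Or.inr rfl)
            linarith
          · exfalso
            rw [v4] at hlt1
            linarith
  -- units
  have uy1 : mk y1 y1 = -1 := by
    rcases hy1 with rfl | rfl
    · exact h.u1
    · rw [mk_neg_left, mk_neg_right, neg_neg]; exact h.u1
  have uy2 : mk y2 y2 = -1 := by
    rcases hy2 with rfl | rfl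
    · exact h.u2
    · rw [mk_neg_left, mk_neg_right, neg_neg]; exact h.u2
  have vy1 : mk v.1 y1 = 0 := by
    rcases hy1 with rfl | rfl
    · exact h.v1
    · rw [mk_neg_right, h.v1, neg_zero]
  have vy2 : mk v.1 y2 = 0 := by
    rcases hy2 with rfl | rfl
    · exact h.v2
    · rw [mk_neg_right, h.v2, neg_zero]
  -- the last step: the sign
  have last : ∀ (m0 m1 m2 : V4) (i : Fin 5), VP p i → (m0 = n0 ∨ m0 = -n0) →
      (((m1 = n1 ∨ m1 = -n1) ∧ (m2 = n2 ∨ m2 = -n2)) ∨ ((m1 = n2 ∨ m1 = -n2) ∧ (m2 = n1 ∨ m2 = -n1))) →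
      mk m1 m1 = -1 → mk m2 m2 = -1 → mk v.1 m1 = 0 → mk v.1 m2 = 0 → mk m0 m1 = cA p → mk m0 m2 = cB p i →
      mk m1 m2 = cD p i → ∃ (i : Fin 5) (k0 k1 k2 : V4), VP p i ∧ (k0 = n0 ∨ k0 = -n0) ∧
        (((k1 = n1 ∨ k1 = -n1) ∧ (k2 = n2 ∨ k2 = -n2)) ∨ ((k1 = n2 ∨ k1 = -n2) ∧ (k2 = n1 ∨ k2 = -n1))) ∧
        Cfg (cA p) (cB p i) (cD p i) v k0 k1 k2 := by
    intro m0 m1 m2 i vp e0 e12 w1 w2 x1 x2 r1 r2 r3
    have w0 : mk m0 m0 = -1 := by
      rcases e0 with rfl | rfl
      · exact h.u0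
      · rw [mk_neg_left, mk_neg_right, neg_neg]; exact h.u0
    have x0 : mk v.1 m0 ≠ 0 := by
      rcases e0 with rfl | rfl
      · exact h.v0
      · rw [mk_neg_right]; exact neg_ne_zero.mpr h.v0
    have ne : ∀ (x y : V4), (x = y ∨ x = -y) → (-x = y ∨ -x = -y) := by
      rintro x y (rfl | rfl)
      · exact Or.inr rfl
      · exact Or.inl (neg_neg _)
    rcases lt_or_gt_of_ne x0 with hx | hx
    · exact ⟨i, m0, m1, m2, vp, e0, e12, ⟨w0, w1, w2, r1, r2, r3, hx, x1, x2⟩⟩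
    · refine ⟨i, -m0, -m1, -m2, vp, ne _ _ e0, ?_, ⟨?_, ?_, ?_, ?_, ?_, ?_, ?_, ?_, ?_⟩⟩
      · rcases e12 with ⟨e1, e2⟩ | ⟨e1, e2⟩
        · exact Or.inl ⟨ne _ _ e1, ne _ _ e2⟩
        · exact Or.inr ⟨ne _ _ e1, ne _ _ e2⟩
      all_goals simp only [mk_neg_left, mk_neg_right, neg_neg]
      · exact w0
      · exact w1
      · exact w2
      · exact r1
      · exact r2
      · exact r3
      · linarith
      · rw [x1, neg_zero]
      · rw [x2, neg_zero]
  -- order of the two normals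
  have red : ∀ (a b : ℕ) (m0 : V4), (m0 = n0 ∨ m0 = -n0) → 0 < a → 0 < b → a ≠ b → a + b < p → Nat.Coprime a p →
      Nat.Coprime b p → fk p (CC p t t') a b < 1 → mk m0 y1 = Real.cos (a * Real.pi / p) →
      mk m0 y2 = Real.cos (b * Real.pi / p) → mk y1 y2 = fk p (CC p t t') a b →
      ∃ (i : Fin 5) (k0 k1 k2 : V4), VP p i ∧ (k0 = n0 ∨ k0 = -n0) ∧
        (((k1 = n1 ∨ k1 = -n1) ∧ (k2 = n2 ∨ k2 = -n2)) ∨ ((k1 = n2 ∨ k1 = -n2) ∧ (k2 = n1 ∨ k2 = -n1))) ∧
        Cfg (cA p) (cB p i) (cD p i) v k0 k1 k2 := by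
    intro a b m0 e0 ha hb hab hs hap hbp hlt1 q1 q2 q3
    rcases lt_or_gt_of_ne hab with hl | hl
    · obtain ⟨i, vp, r1, r2, r3⟩ := core a b m0 y1 y2 ha hb hl hs hbp hlt1 q1 q2 q3
      exact last m0 y1 y2 i vp e0 (Or.inl ⟨hy1, hy2⟩) uy1 uy2 vy1 vy2 r1 r2 r3
    · have e := (hF p a b (CC p t t') (by omega) (by omega) (by omega)).1
      obtain ⟨i, vp, r1, r2, r3⟩ := core b a m0 y2 y1 hb ha hl (by omega) hap (by rw [← e]; exact hlt1) q2 q1
        (by rw [mk_comm, q3, e])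
      exact last m0 y2 y1 i vp e0 (Or.inr ⟨hy2, hy1⟩) uy2 uy1 vy2 vy1 r1 r2 r3
  rcases lt_or_gt_of_ne hkp with hl | hl
  · exact red k k' n0 (Or.inl rfl) k0 k0' hkk hl hk hk' hf1' g1 g2 g3
  · have e := (hF p k k' (CC p t t') (by omega) (by omega) (by omega)).2.1
    have hp0 : (p : ℝ) ≠ 0 := by
      have : (0 : ℝ) < p := by exact_mod_cast (by omega : 0 < p)
      exact this.ne'
    have hcs : ∀ a : ℕ, a ≤ p → Real.cos ((p - a : ℕ) * Real.pi / p) = -Real.cos (a * Real.pi / p) := by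
      intro a ha
      rw [Nat.cast_sub ha, ← Real.cos_pi_sub]
      congr 1
      field_simp
    refine red (p - k) (p - k') (-n0) (Or.inr rfl) (by omega) (by omega) (by omega) (by omega) ?_ ?_
      (by rw [e]; exact hf1') (by rw [mk_neg_left, g1, hcs k kp.le]) (by rw [mk_neg_left, g2, hcs k' kp'.le])
      (by rw [e]; exact g3)
    · exact (Nat.coprime_self_sub_left (by omega)).mpr hk
    · exact (Nat.coprime_self_sub_left (by omega)).mpr hk'

end Pool.Agent.H39.ODP.CLA2
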