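import Pool.Agent.H39.OD.Targets

/-!
# Two-orbit polyhedra with odd faces in hyperbolic 3-space: reduction to class `{0, 1}` (row NO1)
-/

namespace Pool.Agent.H39.ODP.NO1

open Pool.Agent.H57.CP Pool.Agent.H39.TO Pool.Agent.H39.OD

theorem pf (hA : T_FLA) (hS : T_SIN) (hM : T_SML) (hQ : T_QFI) (hC : T_CLS) (hP : T_PAR2) (hO : T_OOO) (hN : T_NEC)
    (hE : T_NET) (hD : T_D0A) : T_NO1 := by
  intro K p hK hT hF hp
  obtain ⟨_, ⟨q, q', hG⟩, _, s2⟩ := hS K hK hT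
  obtain ⟨m1, m2, m3⟩ := hM K hK
  obtain ⟨c1, c2⟩ := hC K hK hT
  obtain ⟨p1, p2⟩ := hP K hK hT
  have ex : ∀ i, In K i → ¬ Out K i := by
    intro i hi ho
    obtain ⟨Φ, Ψ, hΦ, hΨ, hn⟩ := hT.two
    obtain ⟨⟨a, a1, _⟩, ⟨b, b1, _⟩, ⟨c, c1, _⟩⟩ := hA K hK Φ hΦ
    fin_cases i
    · exact ho Φ a a1 (hi Φ a a1)
    · exact ho Φ b b1 (hi Φ b b1)
    · exact ho Φ c c1 (hi Φ c c1)
  have p3 : 3 ≤ p := by
    have := m1 p (by rw [hF]; rfl)
    exact_mod_cast this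
  refine ⟨p3, ?_⟩
  have hpar : In K 0 ↔ In K 1 := p1 p (by rw [hF]; rfl) hp
  have deg : (∃ q, DG K = {q}) → ∃ a : ℕ, DG K = {(a : ℕ∞)} ∧ 3 ≤ a := by
    rintro ⟨q, hq⟩
    obtain ⟨a, ha⟩ := ENat.ne_top_iff_exists.mp (hQ K hK hT q (by rw [hq]; rfl))
    rw [← ha] at hq
    refine ⟨a, hq, ?_⟩
    have a2 : 2 ≤ a := by exact_mod_cast m2 a (by rw [hq]; rfl)
    rcases Nat.lt_or_ge a 3 with h | h
    · exfalso
      have h2 : a = 2 := by omega
      apply m3
      rw [hq, h2]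
      rfl
    · exact h
  rcases c1 0 with i0 | o0
  · have i1 := hpar.mp i0
    have o2 : Out K 2 := by
      rcases c1 2 with i2 | o2
      · exfalso
        obtain ⟨i, hi⟩ := c2
        fin_cases i
        · exact ex 0 i0 hi
        · exact ex 1 i1 hi
        · exact ex 2 i2 hi
      · exact o2
    obtain ⟨a, ha, a3⟩ := deg (s2 (Or.inl i0))
    obtain ⟨v, v1, f, f', a', b', c', hd⟩ := hD K p a hK hT i0 i1 o2 hF ha
    exact ⟨v, v1, f, f', a', b', c', a, hd, a3⟩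
  · exfalso
    have o1 : Out K 1 := by
      rcases c1 1 with i1 | o1
      · exact absurd o0 (ex 0 (hpar.mpr i1))
      · exact o1
    rcases c1 2 with i2 | o2
    · exact hE K p hK hT o0 o1 i2 hF hp
    · have hchi := hO K hK hT o0 o1 o2
      obtain ⟨a, ha, a3⟩ := deg (s2 (Or.inr (Or.inl o1)))
      have hty : Ty K (p : ℕ∞) (a : ℕ∞) := by
        refine ⟨fun f hf => ?_, fun x hx => ?_⟩
        · have : (vts f).encard ∈ FS K := ⟨f, hf, rfl⟩
          rw [hF] at this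
          exact this
        · have : (eds K x).encard ∈ DG K := ⟨x, hx, rfl⟩
          rw [ha] at this
          exact this
      obtain ⟨_, _, h | ⟨b, _, h, _⟩⟩ := hN K p a hK hchi hty
      · exact ENat.natCast_ne_top _ h
      · have h' : p = 2 * b := by exact_mod_cast h
        obtain ⟨k, hk⟩ := hp
        omega

end Pool.Agent.H39.ODP.NO1
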