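import Pool.Agent.H39.OD.Targets

/-!
# Two-orbit polyhedra with odd faces: the reflections `rf` (row RFX)
-/

namespace Pool.Agent.H39.ODP.RFX

open Pool.Agent.H57.CP Pool.Agent.H39.TO Pool.Agent.H39.OD

theorem refl_neg (n : V4) : Pool.Agent.H57.CP.refl (-n) = Pool.Agent.H57.CP.refl n := by
  apply LinearMap.ext
  intro x
  funext i
  show x i + 2 * mk (-n) x * (-n) i = x i + 2 * mk n x * n i
  simp only [mk, Pi.neg_apply]; ring

/-- some point of `H3` is not on the plane -/
theorem off (n : V4) (hn : mk n n = -1) : ∃ x : H3, mk n x.1 ≠ 0 := by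
  by_contra hcon
  push Not at hcon
  have h0 := hcon o
  have h3 : n 3 = 0 := by simpa [mk, o] using h0
  have h4 : ∀ i : Fin 3, n i.castSucc = 0 := by
    intro i
    have h1 := hcon (pt (if i = 0 then 1 else 0) (if i = 1 then 1 else 0) (if i = 2 then 1 else 0))
    fin_cases i
    · simpa [mk, pt, h3] using h1
    · simpa [mk, pt, h3] using h1
    · simpa [mk, pt, h3] using h1
  have e0 : n 0 = 0 := h4 0
  have e1 : n 1 = 0 := h4 1
  have e2 : n 2 = 0 := h4 2
  simp only [mk, h3, e0, e1, e2] at hn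
  norm_num at hn

theorem pf (hL : T_LOR) : T_RFX := by
  intro n hn
  obtain ⟨⟨h1, h2⟩, h3⟩ := hL.2.2 n hn
  have hinv : ∀ x : V4, Pool.Agent.H57.CP.refl n (Pool.Agent.H57.CP.refl n x) = x := by
    intro x
    have := LinearMap.congr_fun h3 x
    exact this
  have hex : ∃ g : Equiv.Perm H3, ∀ x : H3, (g x).1 = Pool.Agent.H57.CP.refl n x.1 := by
    let f : H3 → H3 := fun x => ⟨Pool.Agent.H57.CP.refl n x.1, by rw [h1]; exact x.2.1, h2 x⟩
    have hf : Function.Involutive f := fun x => Subtype.ext (hinv x.1)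
    exact ⟨hf.toPerm, fun x => rfl⟩
  have hrf : ∀ x : H3, (rf n x).1 = Pool.Agent.H57.CP.refl n x.1 := by
    have : rf n = hex.choose := by unfold rf; rw [dif_pos hex]
    rw [this]
    exact hex.choose_spec
  have huniq : ∀ g : Equiv.Perm H3, (∀ x : H3, (g x).1 = Pool.Agent.H57.CP.refl n x.1) → g = rf n := by
    intro g hg
    apply Equiv.ext
    intro x
    apply Subtype.ext
    rw [hg, hrf]
  refine ⟨hrf, ?_, ?_, ?_, ?_, huniq⟩
  · intro x y
    simp only [ch, hrf, h1]
  · apply Equiv.ext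
    intro x
    apply Subtype.ext
    rw [Equiv.Perm.mul_apply, hrf, hrf, hinv]
    rfl
  · intro h
    obtain ⟨x, hx⟩ := off n hn
    have h4 := hrf x
    rw [h] at h4
    apply hx
    have h5 : ∀ i, 2 * mk n x.1 * n i = 0 := by
      intro i
      have h6 : x.1 i = x.1 i + 2 * mk n x.1 * n i := congrFun h4 i
      linarith
    by_contra hne
    have h6 : ∀ i, n i = 0 := by
      intro i
      rcases mul_eq_zero.1 (h5 i) with h7 | h7
      · exact absurd (by linarith : mk n x.1 = 0) hne
      · exact h7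
    simp only [mk, h6] at hn
    norm_num at hn
  · unfold rf
    rw [refl_neg]

end Pool.Agent.H39.ODP.RFX
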