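import Pool.Agent.H12.OD.KWY
import Pool.Agent.H13.OD.CGI
import Pool.Agent.H13.OD.CJW
import Pool.Agent.H19.OD.ORD
import Pool.Agent.H39.ODP.BW2
import Pool.Agent.H39.ODP.CHF
import Pool.Agent.H39.ODP.CLA2
import Pool.Agent.H39.ODP.NO1
import Pool.Agent.H39.ODP.RFX
import Pool.Agent.H39.ODP.RTR2
import Pool.Agent.H49.OD.ECX
import Pool.Agent.H49.OD.EF0
import Pool.Agent.H49.OD.EF1
import Pool.Agent.H49.OD.EF2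
import Pool.Agent.H49.OD.EF3
import Pool.Agent.H49.OD.EF4
import Pool.Agent.H67.OD.TRG
import Pool.Agent.H78.OD.CNG
import Pool.Agent.H79.OD.DLS
import Pool.Agent.H79.OD.RFD2
import Pool.Agent.H89.OD.KOF
import Pool.Agent.H39.OD.MainAsm
import Pool.Agent.H39.TOH.Final

/-!
# Two-orbit polyhedra with odd faces in hyperbolic 3-space: assembly of all modules
-/

namespace Pool.Agent.H39.ODP.Final

open Pool.Agent.H57.CP Pool.Agent.H57.CP.Final Pool.Agent.H39.TO Pool.Agent.H39.TOH.Final Pool.Agent.H39.OD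

theorem tRFX : T_RFX := Pool.Agent.H39.ODP.RFX.pf tLOR
theorem tBW2 : T_BW2 := Pool.Agent.H39.ODP.BW2.pf tSGE tCHM Pool.Agent.H65.TOH.pf_LII tDSW
theorem tECX : T_ECX := Pool.Agent.H49.OD.pf_ECX tRFX tREP tPSI tSGE tCHT tBW2
theorem tEF : ∀ i, T_EF i := ef_all (Pool.Agent.H49.OD.pf_EF0 tECX) (Pool.Agent.H49.OD.pf_EF1 tECX)
  (Pool.Agent.H49.OD.pf_EF2 tECX) (Pool.Agent.H49.OD.pf_EF3 tECX) (Pool.Agent.H49.OD.pf_EF4 tECX)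
theorem tORD2 : T_ORD2 := Pool.Agent.H19.OD.pf_ORD tRFX tORR tSPN
theorem tCHF : T_CHF := Pool.Agent.H39.ODP.CHF.pf tRFX
theorem tDLS : T_DLS := Pool.Agent.H79.OD.pf_DLS Pool.Agent.H10.TOH.BEA.pf
theorem tUNI : T_UNI := uni tEF Pool.Agent.H19.OD.pf_MDC Pool.Agent.H67.OD.pf_TRG tCHF tORD2 tBEB tBEE tBEF
  Pool.Agent.H19.OD.pf_ELS tDLS Pool.Agent.H13.OD.pf_CGI
theorem tNO1 : T_NO1 := Pool.Agent.H39.ODP.NO1.pf tFLA tSIN tSML tQFI tCLS tPAR2 Pool.Agent.H42.TOH.pf_OOO tNEC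
  tNET tD0A
theorem tRFD2 : T_RFD2 := Pool.Agent.H79.OD.pf_RFD2 tRFM Pool.Agent.H42.TOH.pf_SPV tBAL tMKI tLOR
theorem tRTR2 : T_RTR2 := Pool.Agent.H39.ODP.RTR2.pf_RTR2 tANG Pool.Agent.H13.TOH.pf_DPT tPRP
theorem tCLA2 : T_CLA2 := Pool.Agent.H39.ODP.CLA2.pf tRTR2 tANG tEUC tSPH tHYP Pool.Agent.H82.TOH.pf_KKA
  Pool.Agent.H79.TOH.pf_FVL Pool.Agent.H42.TOH.pf_FSY Pool.Agent.H16.TOH.TAA.pf Pool.Agent.H7.TOH.pf_TAB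
  Pool.Agent.H16.TOH.TAC.pf

theorem main' (hWIT : T_WIT) : MainOdd := Pool.Agent.H39.OD.main_asm Pool.Agent.H83.CP.la Pool.Agent.H42.TOH.pf_LBT
  Pool.Agent.H11.TOH.pf_LCT Pool.Agent.H83.CP.LD.ld Pool.Agent.H42.TOH.pf_LET Pool.Agent.H89.OD.pf_KOF
  Pool.Agent.H78.OD.pf_CNG tEF Pool.Agent.H19.OD.pf_MDC Pool.Agent.H67.OD.pf_TRG tCHF tORD2 tBEB tBEE tBEF tUNI tNO1
  tRFD2 (Pool.Agent.H12.OD.pf_KWY tRFX) tCLA2 tRFX hWIT (Pool.Agent.H13.OD.pf_CJW tRFX)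

end Pool.Agent.H39.ODP.Final
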